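import Mathlib.Combinatorics.SimpleGraph.Connectivity.Connected
import Mathlib.Data.Fintype.Sum
import Mathlib.Data.Fintype.Prod
import Mathlib.Data.Set.Card
import Mathlib.Tactic

/-!
# Total domination versus matching number with three triangle-free vertices

For every `k ≥ 1` there is a connected graph on `6 + 3 k` vertices with exactly three vertices
outside triangles, total domination number `k + 4` and matching number `k + 3`.
-/

set_option autoImplicit false

namespace Pool.Agent.Results.MP_7cc4cd_co.ClassThree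

/-- the vertex `v` lies in a triangle of `G` -/
def InTriangle {V : Type} (G : SimpleGraph V) (v : V) : Prop :=
  ∃ x y, G.Adj v x ∧ G.Adj v y ∧ G.Adj x y

/-- `S` is a total dominating set of `G` -/
def TotalDominating {V : Type} (G : SimpleGraph V) (S : Finset V) : Prop :=
  ∀ v, ∃ w ∈ S, G.Adj v w

/-- the total domination number -/
noncomputable def totalDomination {V : Type} (G : SimpleGraph V) : ℕ :=
  sInf {n | ∃ S : Finset V, TotalDominating G S ∧ S.card = n}

/-- `G` has `m` pairwise disjoint edges `f i - g i` -/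
def HasMatching {V : Type} (G : SimpleGraph V) (m : ℕ) : Prop :=
  ∃ f g : Fin m → V, (∀ i, G.Adj (f i) (g i)) ∧ Function.Injective (Sum.elim f g)

/-- the matching number -/
noncomputable def matchingNumber {V : Type} (G : SimpleGraph V) : ℕ := sSup {m | HasMatching G m}

/-- the edges of the core: a triangle `0 1 2`, a pendant vertex `3` at `2`, a pendant path `4 5`
at `1` -/
def coreRel : Fin 6 → Fin 6 → Bool := fun u v =>
  (u, v) ∈ [((0 : Fin 6), (1 : Fin 6)), (0, 2), (1, 2), (2, 3), (1, 4), (4, 5)]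

/-- adjacency in the example -/
def rel (k : ℕ) : (Fin 6 ⊕ Fin k × Fin 3) → (Fin 6 ⊕ Fin k × Fin 3) → Prop
  | .inl u, .inl v => coreRel u v = true ∨ coreRel v u = true
  | .inl u, .inr p => u = 0 ∧ p.2 = 0
  | .inr p, .inl u => u = 0 ∧ p.2 = 0
  | .inr p, .inr q => p.1 = q.1 ∧ p.2 ≠ q.2

/-- the core together with `k` triangles, each joined by one edge to the vertex `0` of the core -/
def ex (k : ℕ) : SimpleGraph (Fin 6 ⊕ Fin k × Fin 3) where
  Adj := rel k
  symm := ⟨by
    rintro (u | p) (v | q) h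
    · exact h.symm
    · exact h
    · exact h
    · exact ⟨h.1.symm, Ne.symm h.2⟩⟩
  loopless := ⟨by
    rintro (u | p) h
    · revert u; simp only [rel]; decide
    · exact h.2 rfl⟩

variable {k : ℕ}

theorem adj_ll {u v : Fin 6} : (ex k).Adj (.inl u) (.inl v) ↔ (coreRel u v = true ∨ coreRel v u = true) :=
  Iff.rfl

theorem adj_lr {u : Fin 6} {p : Fin k × Fin 3} : (ex k).Adj (.inl u) (.inr p) ↔ (u = 0 ∧ p.2 = 0) :=
  Iff.rfl

theorem adj_rl {u : Fin 6} {p : Fin k × Fin 3} : (ex k).Adj (.inr p) (.inl u) ↔ (u = 0 ∧ p.2 = 0) :=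
  Iff.rfl

theorem adj_rr {p q : Fin k × Fin 3} : (ex k).Adj (.inr p) (.inr q) ↔ (p.1 = q.1 ∧ p.2 ≠ q.2) :=
  Iff.rfl

theorem nbr3 {w : Fin 6 ⊕ Fin k × Fin 3} (h : (ex k).Adj (.inl 3) w) : w = .inl 2 := by
  rcases w with w | p
  · rw [adj_ll] at h
    have : w = 2 := by revert w; decide
    rw [this]
  · exact absurd h.1 (by decide)

theorem nbr5 {w : Fin 6 ⊕ Fin k × Fin 3} (h : (ex k).Adj (.inl 5) w) : w = .inl 4 := by
  rcases w with w | p
  · rw [adj_ll] at h
    have : w = 4 := by revert w; decide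
    rw [this]
  · exact absurd h.1 (by decide)

theorem nbr4 {w : Fin 6 ⊕ Fin k × Fin 3} (h : (ex k).Adj (.inl 4) w) : w = .inl 1 ∨ w = .inl 5 := by
  rcases w with w | p
  · rw [adj_ll] at h
    have : w = 1 ∨ w = 5 := by revert w; decide
    rcases this with rfl | rfl
    · exact Or.inl rfl
    · exact Or.inr rfl
  · exact absurd h.1 (by decide)

theorem nbrt {i : Fin k} {j : Fin 3} {w : Fin 6 ⊕ Fin k × Fin 3} (h : (ex k).Adj (.inr (i, j)) w) :
    (w = .inl 0 ∧ j = 0) ∨ ∃ s, s ≠ j ∧ w = .inr (i, s) := by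
  rcases w with w | p
  · rw [adj_rl] at h
    left
    exact ⟨by rw [h.1], h.2⟩
  · rw [adj_rr] at h
    right
    exact ⟨p.2, fun h1 => h.2 h1.symm, by rw [show i = p.1 from h.1]⟩

theorem connected (k : ℕ) : (ex k).Connected := by
  have h1 : (ex k).Reachable (.inl 1) (.inl 0) := (adj_ll.2 (by decide)).reachable
  have h2 : (ex k).Reachable (.inl 2) (.inl 0) := (adj_ll.2 (by decide)).reachable
  have h3 : (ex k).Reachable (.inl 3) (.inl 2) := (adj_ll.2 (by decide)).reachable
  have h4 : (ex k).Reachable (.inl 4) (.inl 1) := (adj_ll.2 (by decide)).reachable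
  have h5 : (ex k).Reachable (.inl 5) (.inl 4) := (adj_ll.2 (by decide)).reachable
  have h6 : ∀ v, (ex k).Reachable v (.inl 0) := by
    rintro (v | ⟨i, j⟩)
    · fin_cases v
      · exact SimpleGraph.Reachable.refl _
      · exact h1
      · exact h2
      · exact h3.trans h2
      · exact h4.trans h1
      · exact h5.trans (h4.trans h1)
    · have h7 : (ex k).Reachable (.inr (i, 0)) (.inl 0) := (adj_rl.2 ⟨rfl, rfl⟩).reachable
      by_cases hj : j = 0
      · rw [hj]; exact h7
      · exact (adj_rr.2 ⟨rfl, hj⟩ : (ex k).Adj (.inr (i, j)) (.inr (i, 0))).reachable.trans h7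
  have : Nonempty (Fin 6 ⊕ Fin k × Fin 3) := ⟨.inl 0⟩
  exact ⟨fun u v => (h6 u).trans (h6 v).symm⟩

theorem nontriangle (k : ℕ) : {v | ¬ InTriangle (ex k) v} = {.inl 3, .inl 4, .inl 5} := by
  ext v
  simp only [Set.mem_ofPred_eq, Set.mem_insert_iff, Set.mem_singleton_iff]
  constructor
  · intro h
    by_contra hne
    push Not at hne
    apply h
    rcases v with v | ⟨i, j⟩
    · obtain ⟨h3, h4, h5⟩ := hne
      fin_cases v
      · exact ⟨.inl 1, .inl 2, adj_ll.2 (by decide), adj_ll.2 (by decide), adj_ll.2 (by decide)⟩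
      · exact ⟨.inl 0, .inl 2, adj_ll.2 (by decide), adj_ll.2 (by decide), adj_ll.2 (by decide)⟩
      · exact ⟨.inl 0, .inl 1, adj_ll.2 (by decide), adj_ll.2 (by decide), adj_ll.2 (by decide)⟩
      · exact absurd rfl h3
      · exact absurd rfl h4
      · exact absurd rfl h5
    · have hj : ∀ j : Fin 3, j ≠ j + 1 ∧ j ≠ j + 2 ∧ j + 1 ≠ j + 2 := by decide
      exact ⟨.inr (i, j + 1), .inr (i, j + 2), adj_rr.2 ⟨rfl, (hj j).1⟩, adj_rr.2 ⟨rfl, (hj j).2.1⟩,
        adj_rr.2 ⟨rfl, (hj j).2.2⟩⟩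
  · rintro (rfl | rfl | rfl) ⟨x, y, hx, hy, hxy⟩
    · rw [nbr3 hx, nbr3 hy] at hxy
      exact (ex k).irrefl hxy
    · rcases nbr4 hx with rfl | rfl <;> rcases nbr4 hy with rfl | rfl <;>
        · rw [adj_ll] at hxy
          revert hxy
          decide
    · rw [nbr5 hx, nbr5 hy] at hxy
      exact (ex k).irrefl hxy

theorem ncard_nontriangle (k : ℕ) : {v | ¬ InTriangle (ex k) v}.ncard = 3 := by
  rw [nontriangle]
  rw [Set.ncard_insert_of_notMem (by simp), Set.ncard_insert_of_notMem (by simp),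
    Set.ncard_singleton]

theorem td_lower (hk : 1 ≤ k) (S : Finset (Fin 6 ⊕ Fin k × Fin 3)) (hS : TotalDominating (ex k) S) :
    k + 4 ≤ S.card := by
  have h2 : (.inl 2) ∈ S := by
    obtain ⟨w, hw, h⟩ := hS (.inl 3)
    rwa [nbr3 h] at hw
  have h4 : (.inl 4) ∈ S := by
    obtain ⟨w, hw, h⟩ := hS (.inl 5)
    rwa [nbr5 h] at hw
  have hc : ∃ c : Fin 6, (c = 1 ∨ c = 5) ∧ .inl c ∈ S := by
    obtain ⟨w, hw, h⟩ := hS (.inl 4)
    rcases nbr4 h with rfl | rfl
    · exact ⟨1, Or.inl rfl, hw⟩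
    · exact ⟨5, Or.inr rfl, hw⟩
  obtain ⟨c, hc, hcS⟩ := hc
  have ht : ∀ i : Fin k, ∃ j : Fin 3, .inr (i, j) ∈ S := by
    intro i
    obtain ⟨w, hw, h⟩ := hS (.inr (i, 1))
    rcases nbrt h with ⟨_, h1⟩ | ⟨s, _, rfl⟩
    · exact absurd h1 (by decide)
    · exact ⟨s, hw⟩
  choose t ht using ht
  obtain ⟨w, hwS, hw⟩ := hS (.inr (⟨0, hk⟩, t ⟨0, hk⟩))
  have hw1 : w = .inl 0 ∨ ∃ s, s ≠ t ⟨0, hk⟩ ∧ w = .inr (⟨0, hk⟩, s) := by
    rcases nbrt hw with h | h
    · exact Or.inl h.1
    · exact Or.inr h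
  classical
  let A : Finset (Fin 6 ⊕ Fin k × Fin 3) := Finset.univ.image (fun i : Fin k => .inr (i, t i))
  have hA : A.card = k := by
    rw [Finset.card_image_of_injective]
    · simp
    · intro i j h
      simp only [Sum.inr.injEq, Prod.mk.injEq] at h
      exact h.1
  let B : Finset (Fin 6 ⊕ Fin k × Fin 3) := {.inl 2, .inl 4, .inl c, w}
  have hB : B.card = 4 := by
    have hw2 : ∀ u : Fin 6, u ≠ 0 → w ≠ .inl u := by
      rintro u hu rfl
      rcases hw1 with h | ⟨s, _, h⟩
      · exact hu (Sum.inl.inj h)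
      · cases h
    have hc2 : c ≠ 2 ∧ c ≠ 4 ∧ c ≠ 0 := by
      rcases hc with rfl | rfl <;> decide
    rw [Finset.card_insert_of_notMem, Finset.card_insert_of_notMem, Finset.card_insert_of_notMem,
      Finset.card_singleton]
    · rw [Finset.mem_singleton]
      exact fun h => hw2 c hc2.2.2 h.symm
    · simp only [Finset.mem_insert, Finset.mem_singleton, Sum.inl.injEq, not_or]
      exact ⟨fun h => hc2.2.1 h.symm, fun h => hw2 4 (by decide) h.symm⟩
    · simp only [Finset.mem_insert, Finset.mem_singleton, Sum.inl.injEq, not_or]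
      exact ⟨by decide, fun h => hc2.1 h.symm, fun h => hw2 2 (by decide) h.symm⟩
  have hAB : Disjoint A B := by
    rw [Finset.disjoint_left]
    intro x hx hx2
    obtain ⟨i, _, rfl⟩ := Finset.mem_image.1 hx
    simp only [B, Finset.mem_insert, Finset.mem_singleton, reduceCtorEq, false_or] at hx2
    rw [← hx2] at hw1
    rcases hw1 with h | ⟨s, hs, h⟩
    · cases h
    · simp only [Sum.inr.injEq, Prod.mk.injEq] at h
      obtain ⟨rfl, h⟩ := h
      exact hs h.symm
  have hsub : A ∪ B ⊆ S := by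
    intro x hx
    rcases Finset.mem_union.1 hx with hx | hx
    · obtain ⟨i, _, rfl⟩ := Finset.mem_image.1 hx
      exact ht i
    · simp only [B, Finset.mem_insert, Finset.mem_singleton] at hx
      rcases hx with rfl | rfl | rfl | rfl
      · exact h2
      · exact h4
      · exact hcS
      · exact hwS
  have := Finset.card_le_card hsub
  rw [Finset.card_union_of_disjoint hAB, hA, hB] at this
  exact this

theorem td_upper (k : ℕ) :
    ∃ S : Finset (Fin 6 ⊕ Fin k × Fin 3), TotalDominating (ex k) S ∧ S.card = k + 4 := by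
  classical
  refine ⟨(Finset.univ.image (fun i : Fin k => .inr (i, 0))) ∪ {.inl 0, .inl 1, .inl 2, .inl 4},
    ?_, ?_⟩
  · rintro (v | ⟨i, j⟩)
    · fin_cases v
      · exact ⟨.inl 1, by simp, adj_ll.2 (by decide)⟩
      · exact ⟨.inl 0, by simp, adj_ll.2 (by decide)⟩
      · exact ⟨.inl 0, by simp, adj_ll.2 (by decide)⟩
      · exact ⟨.inl 2, by simp, adj_ll.2 (by decide)⟩
      · exact ⟨.inl 1, by simp, adj_ll.2 (by decide)⟩
      · exact ⟨.inl 4, by simp, adj_ll.2 (by decide)⟩
    · by_cases hj : j = 0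
      · exact ⟨.inl 0, by simp, adj_rl.2 ⟨rfl, hj⟩⟩
      · exact ⟨.inr (i, 0), by simp, adj_rr.2 ⟨rfl, hj⟩⟩
  · rw [Finset.card_union_of_disjoint, Finset.card_image_of_injective]
    · rw [Finset.card_univ, Fintype.card_fin]
      rw [Finset.card_insert_of_notMem, Finset.card_insert_of_notMem,
        Finset.card_insert_of_notMem, Finset.card_singleton] <;> simp
    · intro i j h
      simp only [Sum.inr.injEq, Prod.mk.injEq, and_true] at h
      exact h
    · rw [Finset.disjoint_left]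
      intro x hx hx2
      obtain ⟨i, _, rfl⟩ := Finset.mem_image.1 hx
      simp at hx2

theorem totalDomination_ex (hk : 1 ≤ k) : totalDomination (ex k) = k + 4 := by
  apply IsLeast.csInf_eq
  refine ⟨td_upper k, ?_⟩
  rintro n ⟨S, hS, rfl⟩
  exact td_lower hk S hS

theorem matching_upper {m : ℕ} (h : HasMatching (ex k) m) : m ≤ k + 3 := by
  obtain ⟨f, g, hadj, hinj⟩ := h
  have hne : ∀ i j, i ≠ j → f i ≠ f j ∧ f i ≠ g j ∧ g i ≠ g j ∧ g i ≠ f j := by
    intro i j hij
    refine ⟨fun h => ?_, fun h => ?_, fun h => ?_, fun h => ?_⟩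
    · exact hij (Sum.inl.inj (hinj (a₁ := .inl i) (a₂ := .inl j) h))
    · exact absurd (hinj (a₁ := .inl i) (a₂ := .inr j) h) (by simp)
    · exact hij (Sum.inr.inj (hinj (a₁ := .inr i) (a₂ := .inr j) h))
    · exact absurd (hinj (a₁ := .inr i) (a₂ := .inl j) h) (by simp)
  have hlab : ∀ i, ∃ l : Fin k ⊕ Fin 3, match l with
      | .inr 0 => f i = .inl 0 ∨ g i = .inl 0
      | .inr 1 => f i = .inl 2 ∨ g i = .inl 2
      | .inr 2 => f i = .inl 4 ∨ g i = .inl 4
      | .inl t => ∃ a b, a ≠ b ∧ f i = .inr (t, a) ∧ g i = .inr (t, b) := by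
    intro i
    have hi := hadj i
    generalize f i = x at hi
    generalize g i = y at hi
    rcases x with x | ⟨i1, j1⟩ <;> rcases y with y | ⟨i2, j2⟩
    · rw [adj_ll] at hi
      have : x = 0 ∨ y = 0 ∨ x = 2 ∨ y = 2 ∨ x = 4 ∨ y = 4 := by
        revert x y; decide
      rcases this with rfl | rfl | rfl | rfl | rfl | rfl
      · exact ⟨.inr 0, Or.inl rfl⟩
      · exact ⟨.inr 0, Or.inr rfl⟩
      · exact ⟨.inr 1, Or.inl rfl⟩
      · exact ⟨.inr 1, Or.inr rfl⟩
      · exact ⟨.inr 2, Or.inl rfl⟩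
      · exact ⟨.inr 2, Or.inr rfl⟩
    · obtain ⟨rfl, _⟩ := adj_lr.1 hi
      exact ⟨.inr 0, Or.inl rfl⟩
    · obtain ⟨rfl, _⟩ := adj_rl.1 hi
      exact ⟨.inr 0, Or.inr rfl⟩
    · obtain ⟨h1, h2⟩ := adj_rr.1 hi
      have h1' : i1 = i2 := h1
      subst h1'
      exact ⟨.inl i1, j1, j2, h2, rfl, rfl⟩
  choose l hl using hlab
  have hlinj : Function.Injective l := by
    intro i j hij
    by_contra hne'
    obtain ⟨h1, h2, h3, h4⟩ := hne i j hne'
    have hi := hl i
    have hj := hl j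
    rw [← hij] at hj
    generalize l i = c at hi hj
    rcases c with t | c
    · obtain ⟨a, b, hab, hfi, hgi⟩ := hi
      obtain ⟨a', b', hab', hfj, hgj⟩ := hj
      rw [hfi, hfj] at h1
      rw [hfi, hgj] at h2
      rw [hgi, hgj] at h3
      rw [hgi, hfj] at h4
      simp only [ne_eq, Sum.inr.injEq, Prod.mk.injEq, true_and] at h1 h2 h3 h4
      have key : ∀ a b a' b' : Fin 3, a ≠ b → a' ≠ b' → ¬ a = a' → ¬ a = b' → ¬ b = b' →
          ¬ b = a' → False := by decide
      exact key a b a' b' hab hab' h1 h2 h3 h4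
    · fin_cases c
      all_goals
        rcases hi with hi | hi <;> rcases hj with hj | hj
      all_goals
        first
        | exact h1 (hi.trans hj.symm)
        | exact h2 (hi.trans hj.symm)
        | exact h3 (hi.trans hj.symm)
        | exact h4 (hi.trans hj.symm)
  have := Fintype.card_le_of_injective l hlinj
  simpa using this

theorem HasMatching.of_fintype {V : Type} {G : SimpleGraph V} {ι : Type} [Fintype ι] (f g : ι → V)
    (hadj : ∀ i, G.Adj (f i) (g i)) (hinj : Function.Injective (Sum.elim f g)) :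
    HasMatching G (Fintype.card ι) := by
  let e := (Fintype.equivFin ι).symm
  refine ⟨f ∘ e, g ∘ e, fun i => hadj (e i), ?_⟩
  have : Sum.elim (f ∘ e) (g ∘ e) = Sum.elim f g ∘ Sum.map e e := by
    ext (i | i) <;> rfl
  rw [this]
  exact hinj.comp (Sum.map_injective.2 ⟨e.injective, e.injective⟩)

theorem matching_lower (hk : 1 ≤ k) : HasMatching (ex k) (k + 3) := by
  have h := HasMatching.of_fintype (G := ex k) (ι := Fin k ⊕ Fin 3)
    (Sum.elim (fun i => .inr (i, 1)) ![.inl 0, .inl 2, .inl 4])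
    (Sum.elim (fun i => .inr (i, 2)) ![.inr (⟨0, hk⟩, 0), .inl 3, .inl 5]) ?_ ?_
  · simpa using h
  · rintro (i | i)
    · exact adj_rr.2 ⟨rfl, (by decide : (1 : Fin 3) ≠ 2)⟩
    · fin_cases i
      · exact adj_lr.2 ⟨rfl, rfl⟩
      · exact adj_ll.2 (by decide)
      · exact adj_ll.2 (by decide)
  · rintro ((i | i) | (i | i)) ((j | j) | (j | j)) h
    all_goals try (fin_cases i)
    all_goals try (fin_cases j)
    all_goals simp_all

theorem matchingNumber_ex (hk : 1 ≤ k) : matchingNumber (ex k) = k + 3 := by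
  apply IsGreatest.csSup_eq
  exact ⟨matching_lower hk, fun m hm => matching_upper hm⟩

/-- For every `k ≥ 1` the connected graph `ex k` on `6 + 3k` vertices has exactly three vertices
outside triangles, `γ_t = k + 4` and `α' = k + 3`.  In particular `γ_t ≤ α'` fails on `𝒢_3`. -/
theorem result :
    (∀ k : ℕ, 1 ≤ k → Fintype.card (Fin 6 ⊕ Fin k × Fin 3) = 6 + 3 * k ∧ (ex k).Connected ∧
      {v | ¬ InTriangle (ex k) v}.ncard = 3 ∧ totalDomination (ex k) = k + 4 ∧
      matchingNumber (ex k) = k + 3) ∧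
    ¬ (∀ (V : Type) [Fintype V] (G : SimpleGraph V),
      (∀ c : G.ConnectedComponent, 4 ≤ c.supp.ncard) → {v | ¬ InTriangle G v}.ncard ≤ 3 →
        totalDomination G ≤ matchingNumber G) := by
  refine ⟨fun k hk => ⟨by simp [mul_comm], connected k, ncard_nontriangle k, totalDomination_ex hk,
    matchingNumber_ex hk⟩, fun h => ?_⟩
  have h1 := h _ (ex 1) ?_ (ncard_nontriangle 1).le
  · rw [totalDomination_ex le_rfl, matchingNumber_ex le_rfl] at h1
    omega
  · intro c
    have : c.supp = Set.univ := by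
      ext v
      simp only [SimpleGraph.ConnectedComponent.mem_supp_iff, Set.mem_univ, iff_true]
      obtain ⟨w, rfl⟩ := c.exists_rep
      exact SimpleGraph.ConnectedComponent.sound ((connected 1).preconnected v w)
    rw [this, Set.ncard_univ, Nat.card_eq_fintype_card]
    decide

end Pool.Agent.Results.MP_7cc4cd_co.ClassThree
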